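import Pool.Agent.Q110.Tys
import Mathlib.Data.Complex.Basic

/-!
# Unique solutions of systems `x_i = 1`, `x_i + x_j = x_k` have small numerators and denominators

Positive answer to Q1 of MP_555c3f_al.  The rows of the (homogenised) system are network rows
(`e_i - e_0`) or sums of two network rows (`(e_i - e_k) + e_j`), so that all the minors that occur in
Cramer's rule are at most `2^(n-1)` in absolute value.
-/

set_option autoImplicit false

namespace Pool.Agent.Results.MP_555c3f_al.UniqueSolutions

open Pool.Agent.Q110.Tys

/-- **Q1 is true.**  If a system `S` of equations `x_i = 1`, `x_i + x_j = x_k` has exactly one solution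
in `ℂ^n`, then every coordinate of it is a rational number whose numerator and denominator (in lowest
terms) are at most `2^(n-1)` in absolute value. -/
theorem result (n : ℕ) (S : Set (Eqn n)) (x : Fin n → ℂ) (hx : ∀ e ∈ S, e.Sat x)
    (hu : ∀ y : Fin n → ℂ, (∀ e ∈ S, e.Sat y) → y = x) (i : Fin n) :
    ∃ q : ℚ, x i = q ∧ |q.num| ≤ 2 ^ (n - 1) ∧ q.den ≤ 2 ^ (n - 1) :=
  unique_bound S x hx hu i

end Pool.Agent.Results.MP_555c3f_al.UniqueSolutions
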